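import Pool.Agent.U463.MD.Fac

/-!
# Iwasawa's conjecture: descent to fields which are dominated by others

Let `p` be a prime, `p = 2` allowed, and `P` a finite set of primes. For a number field `E` let
`Cl_P (E)` be the class group of `E` (in the narrow sense, which matters only for `p = 2` and fields
with a real place) modulo the classes of the primes above the elements of `P`. `ClLe p P E C` says
that `Cl_P (E) / p` has at most `C` elements, in the language of class field theory. For `P = {p}`,
`MuZero p P F` is the assertion of Q1 for `F`: the groups `Cl_P (F R) / p` are bounded for the layers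
`F R` of the cyclotomic `ℤ_p`-extension of `F`.

(1) Let `N / ℚ` be a finite Galois extension with group `G`, let `F ≤ N`, and let `𝓔` be a set of
subfields of `N`. Assume that `𝓔` *dominates* `F`: every finite `𝔽_p[G]`-module with a nonzero vector
fixed by `Gal(N/F)` has a nonzero vector fixed by `Gal(N/E)` for some `E ∈ 𝓔`. Then there is a
constant `B` such that for all subfields `R` of the field of all the roots of unity of `p`-power order
which are of finite degree (in particular for all layers)
`|Cl_P (F R) / p| ≤ B * (max_{E ∈ 𝓔} |Cl_P (E R) / p|) ^ B`. In particular `μ = 0` for all `E ∈ 𝓔`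
implies `μ = 0` for `F`.

(2) A criterion for the domination: let `F = ℚ(α)`, where `α` is a root of the irreducible polynomial
`f`. It is enough that the functions on the roots of `f` with values in `𝔽_p` which are constant on
the roots of each irreducible factor of `f` over `E'`, where `E'` is conjugate to some `E ∈ 𝓔`, span a
space that contains all the functions with sum `0`.

(3) Let the Galois group of the irreducible polynomial `f` of degree at least `3` contain the
alternating group, and let `E` be any number field over which `f` is reducible. Then the inequality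
of (1) holds for `F = ℚ(α)` and `𝓔 = {E}`. So `μ = 0` for `E` implies `μ = 0` for `ℚ(α)`.

If `f` has a factor of degree `k` over `E`, then the composite of the natural maps from the class
group of `F` to the one of `E` and back is the multiplication by the binomial coefficient
`(n - 2).choose (k - 1)` on the relevant part. So (3) is classical if `p` does not divide it; if `p`
divides it, such an argument cannot work, since it does not see the `𝔽_p`-vector spaces that
contribute to `μ` (for instance `n = 5`, `k = 2`, `p = 3`).
-/

set_option autoImplicit false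

open Polynomial IntermediateField

namespace Pool.Agent.Results.MP_d0239a_nt.DescentByReducibility

open Pool.Agent.Q60.MU (Qb)
open Pool.Agent.U463.MD

/-- **Descent to dominated fields.** -/
theorem result (p : ℕ) (hp : p.Prime) (P : Finset ℕ) (hP : ∀ ℓ ∈ P, ℓ.Prime) :
    (∀ N : IntermediateField ℚ Qb, FiniteDimensional ℚ N → IsGalois ℚ N →
      ∀ F ≤ N, ∀ 𝓔 : Set (IntermediateField ℚ Qb), (∀ E ∈ 𝓔, E ≤ N) → Dominates p N 𝓔 F →
        RankBound p P 𝓔 F ∧ ((∀ E ∈ 𝓔, MuZero p P E) → MuZero p P F)) ∧
    (∀ (f : ℚ[X]) (α : Qb), Irreducible f → aeval α f = 0 →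
      ∀ (N : IntermediateField ℚ Qb) (𝓔 : Set (IntermediateField ℚ Qb)),
        Spanning p 𝓔 f → Dominates p N 𝓔 ℚ⟮α⟯) ∧
    (∀ (f : ℚ[X]) (α : Qb), Irreducible f → 3 ≤ f.natDegree → ContainsAlternating f →
      aeval α f = 0 → ∀ E : IntermediateField ℚ Qb, FiniteDimensional ℚ E →
        ¬ Irreducible (f.map (algebraMap ℚ E)) →
        RankBound p P {E} ℚ⟮α⟯ ∧ (MuZero p P E → MuZero p P ℚ⟮α⟯)) := by
  have hpf : Fact p.Prime := ⟨hp⟩
  refine ⟨fun N hN hNn F hF 𝓔 h𝓔 hdom => ?_, fun f α hf hα N 𝓔 hs =>
    hs.dominates hf (mem_rootSet.2 ⟨hf.ne_zero, hα⟩) N, fun f α hf h3 hfull hα E hE hred => ?_⟩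
  · have h := rankBound_of_dominates hp hP N hN hNn F hF 𝓔 h𝓔 hdom
    exact ⟨h, h.mu (finite_sub hN hNn h𝓔)⟩
  · have h := rankBound_of_factor hp hP hf h3 hfull hE hred hα
    exact ⟨h, fun hm => h.mu (Set.finite_singleton E) (by rintro E' rfl; exact hm)⟩

end Pool.Agent.Results.MP_d0239a_nt.DescentByReducibility
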