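import Pool.Agent.U725.RE.Mu

/-!
# μ-invariants and radical extensions: modules `X` (places above `p` split)

Let `k` be a number field, `p` a prime number and `k_∞` a `ℤ_p`-extension of `k`, for example the
cyclotomic one.  It is given by a continuous surjective homomorphism `a` from the Galois group of `k` onto
`ℤ_p` whose kernel is the Galois group of `k_∞`.  Let `Ω` be a Galois extension of `k`, finite or infinite,
such that the degrees of the finite extensions of `k` in `Ω` are prime to `p`.

For a finite extension `F` of `k` in `Ω` let `X(F)` be the Galois group over `F k_∞` of the maximal abelian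
pro-`p` extension of `F k_∞` which is unramified everywhere and in which all places above `p` split
completely.
It is a module over `Λ = ℤ_p[[Γ]]`, `Γ = Gal(F k_∞ / F) = Gal(k_∞ / k)`.  Let `r(F)` be the rank
over `F_p[[T]]` of the module of the `Λ`-linear maps `X(F) → F_p[[T]]`, where `Γ` acts through the character
`(1 + T) ^ a`.  If `X(F)` is pseudo-isomorphic to `⊕ Λ/p^(m_i) ⊕ ⊕ Λ/(f_j)` then `r(F)` is the number of the
factors `Λ/p^(m_i)`, `m_i ≥ 1`; so `r(F) = 0` if and only if `μ = 0`.  The conjecture says that `r(F) = 0` for all `F` if `k_∞` is the cyclotomic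
`ℤ_p`-extension.

We show:

1. A criterion for arbitrary subfields: let `E_i`, finitely many fields between `k` and `F`, be such that
   the indicator function of the inclusion on the set of the embeddings of `F` over `k` is a sum of functions
   with values in `ℤ/p` of the restrictions to the `E_i` (`DecomposesIn`).  If `r(E_i) = 0` for all `i`, then
   `r(F) = 0`.
2. Radical extensions: let `F = E(b_1, ..., b_n)` with `b_i ≠ 0` and `b_i^m ∈ E`, where `p` does not divide
   `m`.  The extension `F / E` need not be Galois, it can have no automorphisms, `E` need not contain roots of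
   unity, and the `b_i` can be roots of unity.  If `r(E(b)) = 0` for the simple radical extensions `E(b)`,
   `b = ∏ b_i^(e_i)`, `0 ≤ e_i < m`, then `r(F) = 0`.
3. If `r(F) ≠ 0` and `r(E) = 0` for all smaller fields `k ⊆ E ⊂ F`, then the indicator function of `F` is no
   such sum for fields `E_i ≠ F`; in particular, if `F` is generated over a subfield `E` by radicals as in (2),
   then `F = E(b)` for one of the products `b`.

Proof.  The rank `r(F)` is the rank of the vectors fixed by `Gal(L/F)` in a torsion-free `F_p[[T]]`-module with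
an action of `Gal(L/k)`, `L ⊆ Ω` Galois over `k` (`Pool.Agent.U10.Mu`, by helper10, helper103).  If `x` is fixed by
`Gal(L/F)` and the indicator function of `Gal(L/F)` is the sum of functions `f_i` invariant under right
translations by `Gal(L/E_i)`, then `x` is, up to a factor prime to `p`, the sum of the `∑ f_i(g) g x`, which
are combinations of the conjugates of the vectors `∑_(h ∈ Gal(L/E_i)) h x = 0`.  For radical extensions
the numbers `g(b) / b` are roots of unity, whose sum over the exponents is `0` or `m^n`; they are made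
elements of `ℤ/p` by a reduction modulo a prime above `p` and a linear form.  The starting point is
`MP_f01982_nt.RadicalExtensions`, the same idea for Zagier's conjecture.
-/

set_option autoImplicit false

open Module

namespace Pool.Agent.Results.MP_d0239a_nt.RadicalExtensions

open Pool.Agent.U725.RE
open Pool.Agent.U10.Mu
open Pool.Agent.U10.Shr (ine dec)

variable {k : Type} [Field k] [NumberField k]

/-- `f` is a continuous homomorphism from the Galois group of `K k_∞` (`a.ker` is the Galois group of
`k_∞`) to `F_p[[T]]` which is zero on all inertia groups and on the decomposition groups of the places above `p`,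
with `f(σ x σ⁻¹) = (1 + T) ^ a(σ) f(x)` for all `σ` in the Galois group of `K`: a `Λ`-linear map from `X(K)` to
`F_p[[T]]`. -/
def IsLambdaMap (p : ℕ) [Fact p.Prime]
    (a : (AlgebraicClosure k ≃ₐ[k] AlgebraicClosure k) →* Multiplicative ℤ_[p])
    (K : IntermediateField k (AlgebraicClosure k))
    (f : ↥(K.fixingSubgroup ⊓ a.ker) → PowerSeries (ZMod p)) : Prop :=
  (∀ x y, f (x * y) = f x + f y) ∧
  (∀ n, IsLocallyConstant fun x => PowerSeries.coeff n (f x)) ∧
  (∀ V : ValuationSubring (AlgebraicClosure k), ∀ x : ↥(K.fixingSubgroup ⊓ a.ker),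
    x.1 ∈ ine k V → f x = 0) ∧
  (∀ V : ValuationSubring (AlgebraicClosure k), (p : AlgebraicClosure k) ∈ V.nonunits →
    ∀ x : ↥(K.fixingSubgroup ⊓ a.ker), x.1 ∈ dec k V → f x = 0) ∧
  ∀ σ ∈ K.fixingSubgroup, ∀ x y : ↥(K.fixingSubgroup ⊓ a.ker), y.1 = σ * x.1 * σ⁻¹ →
    f y = opw p (a σ).toAdd * f x

variable {p : ℕ} [Fact p.Prime]
  {a : (AlgebraicClosure k ≃ₐ[k] AlgebraicClosure k) →* Multiplicative ℤ_[p]}
  {K : IntermediateField k (AlgebraicClosure k)}

omit [NumberField k] in
theorem isLambdaMap_iff (f : ↥(K.fixingSubgroup ⊓ a.ker) → PowerSeries (ZMod p)) :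
    IsLambdaMap p a K f ↔ f ∈ EE p a (famD k p) K.fixingSubgroup := by
  constructor
  · rintro ⟨h1, h2, h3, h5, h4⟩
    refine ⟨h1, h2, ?_, h4⟩
    rintro D (⟨V, rfl⟩ | ⟨V, hV, rfl⟩) x hx
    · exact h3 V x hx
    · exact h5 V hV x hx
  · rintro ⟨h1, h2, h3, h4⟩
    exact ⟨h1, h2, fun V x hx => h3 _ (Or.inl ⟨V, rfl⟩) x hx,
      fun V hV x hx => h3 _ (Or.inr ⟨V, hV, rfl⟩) x hx, h4⟩

/-- The module of the `Λ`-linear maps from `X(K)` to `F_p[[T]]`. -/
def lambdaMaps (p : ℕ) [Fact p.Prime]
    (a : (AlgebraicClosure k ≃ₐ[k] AlgebraicClosure k) →* Multiplicative ℤ_[p])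
    (K : IntermediateField k (AlgebraicClosure k)) :
    Submodule (PowerSeries (ZMod p)) (↥(K.fixingSubgroup ⊓ a.ker) → PowerSeries (ZMod p)) where
  carrier := {f | IsLambdaMap p a K f}
  add_mem' := fun {f g} hf hg => (isLambdaMap_iff _).2
    (add_mem ((isLambdaMap_iff f).1 hf) ((isLambdaMap_iff g).1 hg))
  zero_mem' := (isLambdaMap_iff _).2 (zero_mem _)
  smul_mem' := fun c {f} hf => (isLambdaMap_iff _).2
    (Submodule.smul_mem _ c ((isLambdaMap_iff f).1 hf))

/-- The rank of this module over `F_p[[T]]`. -/
noncomputable def rk (p : ℕ) [Fact p.Prime]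
    (a : (AlgebraicClosure k ≃ₐ[k] AlgebraicClosure k) →* Multiplicative ℤ_[p])
    (K : IntermediateField k (AlgebraicClosure k)) : Cardinal :=
  Module.rank (PowerSeries (ZMod p)) (lambdaMaps p a K)

omit [NumberField k] in
theorem rk_eq : rk p a = rkE p a (famD k p) := by
  funext K
  have h1 : lambdaMaps p a K = EE p a (famD k p) K.fixingSubgroup :=
    Submodule.ext fun f => isLambdaMap_iff f
  unfold rk rkE
  rw [h1]

/-- (1) the criterion for finitely many subfields; (2) radical extensions; (3) fields with `r(F) ≠ 0` all of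
whose proper subfields have rank `0`. -/
theorem result (p : ℕ) [Fact p.Prime]
    (a : (AlgebraicClosure k ≃ₐ[k] AlgebraicClosure k) →* Multiplicative ℤ_[p])
    (_ha : Continuous a) (_hs : Function.Surjective a) 
    (Ω : IntermediateField k (AlgebraicClosure k)) (hΩ : Normal k Ω)
    (hd : ∀ K ≤ Ω, FiniteDimensional k K → ¬ p ∣ finrank k K)
    (F : IntermediateField k (AlgebraicClosure k)) (hF : F ≤ Ω) (hFf : FiniteDimensional k F) :
    (∀ (ι : Type) [Fintype ι] (E : ι → IntermediateField k (AlgebraicClosure k)), (∀ i, E i ≤ F) →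
      DecomposesIn (ZMod p) F E → (∀ i, rk p a (E i) = 0) → rk p a F = 0) ∧
    (∀ (E : IntermediateField k (AlgebraicClosure k)) (m n : ℕ) (b : Fin n → AlgebraicClosure k),
      IsRadical E F m b → ¬ p ∣ m → (∀ e : Fin n → Fin m, rk p a (simple E b e) = 0) →
        rk p a F = 0) ∧
    (rk p a F ≠ 0 → (∀ E < F, rk p a E = 0) →
      (∀ (ι : Type) [Fintype ι] (E : ι → IntermediateField k (AlgebraicClosure k)), (∀ i, E i < F) →
        ¬ DecomposesIn (ZMod p) F E) ∧
      ∀ (E : IntermediateField k (AlgebraicClosure k)) (m n : ℕ) (b : Fin n → AlgebraicClosure k),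
        IsRadical E F m b → ¬ p ∣ m → ∃ e : Fin n → Fin m, simple E b e = F) := by
  rw [rk_eq]
  have h1 : ∀ (ι : Type) [Fintype ι] (E : ι → IntermediateField k (AlgebraicClosure k)),
      (∀ i, E i ≤ F) → DecomposesIn (ZMod p) F E → (∀ i, rkE p a (famD k p) (E i) = 0) →
        rkE p a (famD k p) F = 0 := fun ι _ E hE hdec hz =>
    mu_of_decomposes a (stab_famD k p) hΩ hd hF hFf hE hdec hz
  have h2 : ∀ (E : IntermediateField k (AlgebraicClosure k)) (m n : ℕ)
      (b : Fin n → AlgebraicClosure k), IsRadical E F m b → ¬ p ∣ m →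
      (∀ e : Fin n → Fin m, rkE p a (famD k p) (simple E b e) = 0) → rkE p a (famD k p) F = 0 :=
    fun E m n b hb hpm h => h1 _ _ (fun e => simple_le hb e) (decomposesIn_rad hb p hpm) h
  refine ⟨h1, h2, fun hne hall => ⟨fun ι _ E hE hdec => ?_, fun E m n b hb hpm => ?_⟩⟩
  · exact hne (h1 ι E (fun i => (hE i).le) hdec fun i => hall _ (hE i))
  · by_contra hcon
    push Not at hcon
    exact hne (h2 E m n b hb hpm fun e => hall _ (lt_of_le_of_ne (simple_le hb e) (hcon e)))

end Pool.Agent.Results.MP_d0239a_nt.RadicalExtensions
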