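import Pool.Agent.U152.MU.RkDom
import Pool.Agent.X310.MuRay
import Pool.Agent.Results.MP_4e64b4_nt.TightFields

/-!
# Iwasawa's conjecture for the class groups modulo the primes above `p`: reduction to tight fields

Let `p` be a prime (`p = 2` is allowed). For a number field `L` let `rk p L` be the number of elements of
order dividing `p` of the ideal class group of `L` modulo the classes of the primes above `p`, and let
`BoundedRank p F` be the assertion that `rk p (F E)` is bounded for the layers `F E` of the cyclotomic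
`ℤ_p`-extension of `F`, where `E` is the real field of degree `p ^ n` in the field of the
`p ^ (n + 2)`-th roots of unity. This is the assertion of Q1 for `F` and `p`.

For a finite group `Γ` call a subgroup `H` of order prime to `p` a *peak* (`Peak`) if some irreducible
`𝔽_p[Γ]`-module `V` has a nonzero `H`-fixed vector and no nonzero vector fixed by a subgroup of order
prime to `p` which is larger than `H`. A number field `M` is *tight* if for all number fields `L` with
`M = L^H`, `H ≤ Aut L` of order prime to `p`, the subgroup `H` is a peak.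

* For each `n`: if Q1 is true for the prime `p` and the tight fields of degree at most `n`, then it is
  true for `p` and all the number fields of degree at most `n`. So a counterexample of least degree is
  tight.
* For each number field `L`, Q1 is true for `L` if and only if it is true for `L^H` for all peaks
  `H ≤ Aut L`.
* The group of automorphisms of a tight field is small: its subgroups of order `q r`, with `q` and `r`
  primes different from `p`, are cyclic; for odd `p` the product of two involutions has `p`-power order,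
  and the nonabelian simple subgroups have odd order (so there are none, by Feit and Thompson).

The main step is the inequality `rk p (L^H E) ≤ (∏ i, rk p (L^{D i} E)) ^ |Aut L|` for all fields `E`
which are Galois of `p`-power degree over `ℚ`, if `H` and the `D i` have order prime to `p` and each
irreducible `𝔽_p[Aut L]`-module with a nonzero `H`-fixed vector has a nonzero `D i`-fixed vector for some
`i` (`Pool.Agent.U152.MU.rk_dom_cx`).
-/

set_option autoImplicit false

open NumberField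

namespace Pool.Agent.Results.MP_d0239a_nt.TightFields

open Pool.Agent.X27.Cln Pool.Agent.X310.Mu Pool.Agent.U152.MU
open Pool.Agent.Results.MP_4e64b4_nt.DominatedFixedFields (fx_bot card_bot)
open Pool.Agent.Results.MP_4e64b4_nt.TightFields (Peak not_peak peaks_dominate fx_finrank cyclic_of_free
  ker_of_free inv_of_free)

/-- The assertion of Q1 for the number field `F` and the prime `p`: the ranks of the class groups
modulo the primes above `p` of the layers of the cyclotomic `ℤ_p`-extension of `F` are bounded. -/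
def BoundedRank (p : ℕ) (F : IntermediateField ℚ ℂ) : Prop :=
  ∃ C : ℕ, ∀ (n : ℕ) (E : IntermediateField ℚ ℂ),
    E ≤ IntermediateField.adjoin ℚ {z : ℂ | z ^ (p ^ (n + 2)) = 1} →
    Module.finrank ℚ E = p ^ n →
    (∀ x ∈ E, starRingEnd ℂ x = x) →
    ∀ [NumberField ↥(F ⊔ E)], rk p ↥(F ⊔ E) ≤ C

/-- In each number field `L` with `M = L^H`, `H ≤ Aut L` of order prime to `p`, the subgroup `H` is a
peak. -/
def Tight (p : ℕ) (M : IntermediateField ℚ ℂ) : Prop :=
  ∀ L : IntermediateField ℚ ℂ, FiniteDimensional ℚ L → ∀ H : Subgroup (L ≃ₐ[ℚ] L),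
    ¬ p ∣ Nat.card H → fx L H = M → Peak p H

theorem bd_dom {p : ℕ} (hp : p.Prime) (F : IntermediateField ℚ ℂ) (_ : FiniteDimensional ℚ F)
    {ι : Type} [Fintype ι] (H : Subgroup (F ≃ₐ[ℚ] F)) (D : ι → Subgroup (F ≃ₐ[ℚ] F))
    (hH : ¬ p ∣ Nat.card H) (hD : ∀ i, ¬ p ∣ Nat.card (D i)) (hdom : Dominates p H D)
    (h : ∀ i, BoundedRank p (fx F (D i))) : BoundedRank p (fx F H) := by
  have hpf : Fact p.Prime := ⟨hp⟩
  choose C hC using h
  refine ⟨(∏ i, C i) ^ Nat.card (F ≃ₐ[ℚ] F), fun n E hE hEf hr hnf => ?_⟩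
  have hfd : FiniteDimensional ℚ E := FiniteDimensional.of_finrank_pos (by rw [hEf]; exact pow_pos hp.pos n)
  have hg : IsGalois ℚ E := abelian_of_le _ (pow_pos hp.pos _) E hE
  have nF : NumberField F := ⟨⟩
  have hfx : ∀ D : Subgroup (F ≃ₐ[ℚ] F), FiniteDimensional ℚ (fx F D) := fun D => fx_fd F D
  have hnf' : ∀ D : Subgroup (F ≃ₐ[ℚ] F), NumberField ↥(fx F D ⊔ E) := fun D => by
    have : FiniteDimensional ℚ ↥(fx F D ⊔ E) := inferInstance
    exact ⟨⟩
  have hnf2 : NumberField ↥(F ⊔ E) := by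
    have : FiniteDimensional ℚ ↥(F ⊔ E) := inferInstance
    exact ⟨⟩
  have hnf3 : ∀ i, NumberField ↥(fx F (D i) ⊔ E) := fun i => hnf' (D i)
  refine (rk_dom_cx F E n hEf H D hH hD hdom).trans (Nat.pow_le_pow_left ?_ _)
  exact Finset.prod_le_prod' fun i _ => hC i n E hE hEf hr

theorem bd_sub {p : ℕ} (hp : p.Prime) (F : IntermediateField ℚ ℂ) (_ : FiniteDimensional ℚ F)
    (D : Subgroup (F ≃ₐ[ℚ] F)) (hD : ¬ p ∣ Nat.card D) (h : BoundedRank p F) : BoundedRank p (fx F D) := by
  have hpf : Fact p.Prime := ⟨hp⟩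
  obtain ⟨C, hC⟩ := h
  refine ⟨C, fun n E hE hEf hr hnf => ?_⟩
  have hfd : FiniteDimensional ℚ E := FiniteDimensional.of_finrank_pos (by rw [hEf]; exact pow_pos hp.pos n)
  have nF : NumberField F := ⟨⟩
  have hnf' : NumberField ↥(F ⊔ E) := by
    have : FiniteDimensional ℚ ↥(F ⊔ E) := inferInstance
    exact ⟨⟩
  exact (rk_ge_cx F E D hD).trans (hC n E hE hEf hr)

theorem tight_free {p : ℕ} (hp : p.Prime) {M : IntermediateField ℚ ℂ} (hM : FiniteDimensional ℚ M)
    (ht : Tight p M) :
    ∃ (V : Type) (_ : CommGroup V) (b : (M ≃ₐ[ℚ] M) →* MulAut V), (∀ v : V, v ^ p = 1) ∧ (∃ v : V, v ≠ 1) ∧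
      ∀ D : Subgroup (M ≃ₐ[ℚ] M), ¬ p ∣ Nat.card D → D ≠ ⊥ → ∀ v : V, (∀ d ∈ D, b d v = v) → v = 1 := by
  obtain ⟨V, i1, i2, b, hV, _, ⟨v, hv, _⟩, h⟩ := ht M hM ⊥ (card_bot hp) (fx_bot M)
  refine ⟨V, i1, b, hV, ⟨v, hv⟩, fun D hD hD0 => h D hD ?_⟩
  rw [Subgroup.card_bot]
  exact Subgroup.one_lt_card_iff_ne_bot D |>.2 hD0

theorem red {p : ℕ} (hp : p.Prime) (n : ℕ)
    (h : ∀ M : IntermediateField ℚ ℂ, FiniteDimensional ℚ M → Tight p M →
      Module.finrank ℚ M ≤ n → BoundedRank p M)
    (F : IntermediateField ℚ ℂ) (hF : FiniteDimensional ℚ F)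
    (hn : Module.finrank ℚ F ≤ n) : BoundedRank p F := by
  obtain ⟨m, hm⟩ : ∃ m, Module.finrank ℚ F = m := ⟨_, rfl⟩
  induction m using Nat.strong_induction_on generalizing F with
  | _ m ih =>
    by_cases ht : Tight p F
    · exact h F hF ht hn
    unfold Tight at ht
    push Not at ht
    obtain ⟨L, hL, H, hH, hHF, hpk⟩ := ht
    rw [← hHF]
    have : Finite (L ≃ₐ[ℚ] L) := inferInstance
    have : Fintype {D : Subgroup (L ≃ₐ[ℚ] L) // ¬ p ∣ Nat.card D ∧ Nat.card H < Nat.card D} :=
      Fintype.ofFinite _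
    refine bd_dom hp L hL H _ hH (fun D => D.2.1) (not_peak hpk) fun D => ?_
    have hlt : Module.finrank ℚ (fx L D.1) < Module.finrank ℚ F := by
      have h1 := fx_finrank L D.1
      have h2 := fx_finrank L H
      rw [hHF] at h2
      have h3 := D.2.2
      have h4 : 0 < Module.finrank ℚ F := Module.finrank_pos
      have h5 : 0 < Nat.card D.1 := Nat.card_pos
      by_contra hle
      push Not at hle
      have h6 : Module.finrank ℚ F * Nat.card H < Module.finrank ℚ F * Nat.card D.1 :=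
        (Nat.mul_lt_mul_left h4).2 h3
      have h7 : Module.finrank ℚ F * Nat.card D.1 ≤ Module.finrank ℚ (fx L D.1) * Nat.card D.1 :=
        Nat.mul_le_mul_right _ hle
      omega
    exact ih _ (by rw [← hm]; exact hlt) (fx L D.1) (fx_fd L D.1) (hlt.le.trans hn) rfl

theorem peaks_iff {p : ℕ} (hp : p.Prime) (L : IntermediateField ℚ ℂ) (hL : FiniteDimensional ℚ L) :
    BoundedRank p L ↔
      ∀ H : Subgroup (L ≃ₐ[ℚ] L), ¬ p ∣ Nat.card H → Peak p H → BoundedRank p (fx L H) := by
  constructor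
  · exact fun h H hH _ => bd_sub hp L hL H hH h
  · intro h
    have : Finite (L ≃ₐ[ℚ] L) := inferInstance
    have : Fintype {D : Subgroup (L ≃ₐ[ℚ] L) // ¬ p ∣ Nat.card D ∧ Peak p D} := Fintype.ofFinite _
    have h1 := bd_dom hp L hL ⊥ _ (card_bot hp)
      (fun D : {D : Subgroup (L ≃ₐ[ℚ] L) // ¬ p ∣ Nat.card D ∧ Peak p D} => D.2.1) (peaks_dominate hp)
      (fun D => h D.1 D.2.1 D.2.2)
    rwa [fx_bot] at h1

/-- **The reduction of Q1 to tight fields, for each prime `p` and in each degree.** -/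
theorem result (p : ℕ) (hp : p.Prime) :
    (∀ n : ℕ, (∀ M : IntermediateField ℚ ℂ, FiniteDimensional ℚ M → Tight p M →
        Module.finrank ℚ M ≤ n → BoundedRank p M) →
      ∀ F : IntermediateField ℚ ℂ, FiniteDimensional ℚ F → Module.finrank ℚ F ≤ n →
        BoundedRank p F) ∧
    (∀ L : IntermediateField ℚ ℂ, FiniteDimensional ℚ L →
      (BoundedRank p L ↔
        ∀ H : Subgroup (L ≃ₐ[ℚ] L), ¬ p ∣ Nat.card H → Peak p H → BoundedRank p (fx L H))) ∧
    (∀ M : IntermediateField ℚ ℂ, FiniteDimensional ℚ M → Tight p M →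
      (∀ (Γ : Subgroup (M ≃ₐ[ℚ] M)) (q r : ℕ), q.Prime → r.Prime → q ≠ p → r ≠ p → Nat.card Γ = q * r →
        IsCyclic Γ) ∧
      (p ≠ 2 → ∀ c c' : M ≃ₐ[ℚ] M, c ≠ 1 → c' ≠ 1 → c * c = 1 → c' * c' = 1 → ∃ k, (c * c') ^ p ^ k = 1) ∧
      (p ≠ 2 → ∀ Γ : Subgroup (M ≃ₐ[ℚ] M), IsSimpleGroup Γ → (∃ a b : Γ, a * b ≠ b * a) →
        ∀ c ∈ Γ, c * c = 1 → c = 1)) := by
  refine ⟨fun n h F hF hn => red hp n h F hF hn, fun L hL => peaks_iff hp L hL, fun M hM ht => ?_⟩
  obtain ⟨V, _, b, hV, hne, hfree⟩ := tight_free hp hM ht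
  have : Finite (M ≃ₐ[ℚ] M) := inferInstance
  refine ⟨fun Γ q r hq hr hqp hrp hc => cyclic_of_free b hp hV hne hfree Γ hq hr hqp hrp hc,
    fun hp2 c c' hc1 hc1' hc hc' => ?_, fun hp2 Γ hΓ hn c hcΓ hc => ?_⟩
  · refine ker_of_free b hp hne hfree (c * c') ?_
    ext v
    rw [map_mul, MulAut.mul_apply, inv_of_free b hp hp2 hfree hc' hc1', inv_of_free b hp hp2 hfree hc hc1,
      inv_inv, MulAut.one_apply]
  · by_contra hc1
    have h1 := comms_of_simple Γ hn hcΓ hc1
    have h2 : b c = 1 := comms_le_ker b (inv_of_free b hp hp2 hfree hc hc1) h1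
    obtain ⟨v, hv⟩ := hne
    apply hv
    refine eq_one_two hp hp2 (hV v) ?_
    have h3 := inv_of_free b hp hp2 hfree hc hc1 v
    rw [h2, MulAut.one_apply] at h3
    nth_rewrite 2 [h3]
    exact mul_inv_cancel v

end Pool.Agent.Results.MP_d0239a_nt.TightFields
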